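import Pool.Agent.W300.FT.Stm

set_option autoImplicit false

namespace Pool.Agent.W726.FT.Hit
open MeasureTheory ProbabilityTheory Pool.Agent.W300.FT

noncomputable section

theorem meas_bool_eq {α : Type*} [MeasurableSpace α] (f g : α → Bool) (hf : Measurable f)
    (hg : Measurable g) : MeasurableSet {x | f x = g x} := by
  have h : Measurable (fun x => (f x, g x)) := hf.prodMk hg
  exact h (MeasurableSet.of_discrete (s := {p : Bool × Bool | p.1 = p.2}))

theorem measD {α : Type*} [MeasurableSpace α] (s : Finset ℕ) (h : ℕ → α → Bool)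
    (hh : ∀ j, Measurable (h j)) : Measurable (fun y => decide (∑ j ∈ s, bt (h j y) = 1)) := by
  have h1 : Measurable (fun y => (fun j : s => h j y)) :=
    measurable_pi_lambda _ fun j => hh j
  have h2 : Measurable (fun v : s → Bool => decide (∑ j : s, bt (v j) = 1)) :=
    Measurable.of_discrete
  have h3 := h2.comp h1
  have h4 : (fun y => decide (∑ j ∈ s, bt (h j y) = 1))
      = (fun v : s → Bool => decide (∑ j : s, bt (v j) = 1)) ∘ (fun y => (fun j : s => h j y)) := by
    funext y
    simp only [Function.comp_apply]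
    rw [Finset.sum_coe_sort s (fun j => bt (h j y))]
  rw [h4]
  exact h3

theorem bt_iff (p q : Bool) (S : ZMod 2) : bt p * bt q = S ↔ (p && q) = decide (S = 1) := by
  have hS : S = 0 ∨ S = 1 := by
    revert S; decide
  rcases hS with rfl | rfl <;> cases p <;> cases q <;> simp [bt]

theorem xor_iff (S T : ZMod 2) : decide (S + T = 1) = xor (decide (S = 1)) (decide (T = 1)) := by
  revert S T; decide

theorem hit (hprv : S_PRV) (hrel : S_REL) (hcov : S_COV) (hbit : S_BIT) (h1 : S_LOC1)
    (h2 : S_LOC2) (h3 : S_LOC3) (hgeo : S_GEO) (hm : S_MEAS) : S_HIT := by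
  intro V G hV hT hdeg F hF hmap m γ hNB
  have hC := hcov V G hV hdeg (4 * m) γ (fun j hj => hNB.1 j hj)
  rw [← hmap] at hC
  have hC' := ae_of_ae_map hF.aemeasurable hC
  -- the local values are right
  have hL3 : ∀ᵐ y ∂(PI V), ∀ j : ℕ, y ∈ Loc G F m (γ j) → F y (γ j) = Gf G F m (γ j) y :=
    ae_all_iff.2 fun j => h3 V G F hV hF m (γ j)
  have key : ∀ c1 : ℕ, ∀ᵐ y ∂(PI V), ¬ ((∀ j ≤ 4 * m + 2, y ∈ Loc G F m (γ j)) ∧
      Mx G (F y) (4 * m, c1) γ) := by
    intro c1
    set c : ℕ × ℕ := (4 * m, c1) with hc
    set n : ℕ := 4 * m + 2 with hn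
    set p : ℕ := 2 * m + 1 with hp
    have hcn : c.1 + 2 = n := rfl
    set g : ℕ → (V → unitInterval) → K → Bool := fun j => Gf G F m (γ j) with hg
    have hgm : ∀ j k, Measurable (fun y => g j y k) := fun j k =>
      (measurable_pi_apply k).comp (h1 V G F hV hF m (γ j)).2
    have hLm : ∀ j, MeasurableSet (Loc G F m (γ j)) := fun j => (h1 V G F hV hF m (γ j)).1
    have htri : ∀ (i j : ℕ) (u : V), i ≤ j → j ≤ n → u ∈ Bal G m (γ i) → u ∈ Bal G m (γ j) →
        j - i ≤ 2 * m := by
      intro i j u hij hj hi1 hj1
      have e1 := hgeo V G hT n γ hNB i j hij hj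
      have e2 := hT.1.dist_triangle (u := γ i) (v := u) (w := γ j)
      have e3 : G.dist (γ i) u ≤ m := hi1
      have e4 : G.dist (γ j) u ≤ m := hj1
      rw [SimpleGraph.dist_comm (u := u) (v := γ j)] at e2
      omega
    set NL : Set V := {u | ∃ j ≤ p, u ∈ Bal G m (γ j)} with hNL
    set NR : Set V := {u | ∃ j, p ≤ j ∧ j ≤ n ∧ u ∈ Bal G m (γ j)} with hNR
    set cond : ℕ → (V → unitInterval) → Prop := fun j y =>
      g j y (c, j, 0) = true ∧ g (j + 1) y (c, j, 0) = true ∧ g j y (c, j, 1) = true ∧
        g (j + 1) y (c, j, 1) = true with hcond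
    have hcm : ∀ j, MeasurableSet {y | cond j y} := by
      intro j
      have e : ∀ j k, MeasurableSet {y | g j y k = true} := fun j k =>
        meas_bool_eq _ _ (hgm j k) measurable_const
      exact (e _ _).inter ((e _ _).inter ((e _ _).inter (e _ _)))
    set EL : Set (V → unitInterval) := {y | (∀ j ≤ p, y ∈ Loc G F m (γ j)) ∧ ∀ j < p, cond j y}
      with hEL
    set ER : Set (V → unitInterval) :=
      {y | (∀ j, p ≤ j → j ≤ n → y ∈ Loc G F m (γ j)) ∧ ∀ j, p ≤ j → j < n → cond j y} with hER
    have hpn : p ≤ n := by omega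
    have hsame : ∀ (j : ℕ) (y y' : V → unitInterval), (∀ u ∈ Bal G m (γ j), y u = y' u) →
        (y ∈ Loc G F m (γ j) ↔ y' ∈ Loc G F m (γ j)) ∧ g j y = g j y' := fun j y y' h =>
      h2 V G F m (γ j) y y' h
    have hELs : ∀ y y' : V → unitInterval, (∀ u ∈ NL, y u = y' u) → y ∈ EL → y' ∈ EL := by
      rintro y y' h ⟨ha, hb⟩
      have hs : ∀ j ≤ p, (y ∈ Loc G F m (γ j) ↔ y' ∈ Loc G F m (γ j)) ∧ g j y = g j y' :=
        fun j hj => hsame j y y' fun u hu => h u ⟨j, hj, hu⟩
      refine ⟨fun j hj => (hs j hj).1.1 (ha j hj), fun j hj => ?_⟩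
      have := hb j hj
      simp only [hcond] at this ⊢
      rw [← (hs j hj.le).2, ← (hs (j + 1) hj).2]
      exact this
    have hERs : ∀ y y' : V → unitInterval, (∀ u ∈ NR, y u = y' u) → y ∈ ER → y' ∈ ER := by
      rintro y y' h ⟨ha, hb⟩
      have hs : ∀ j, p ≤ j → j ≤ n →
          (y ∈ Loc G F m (γ j) ↔ y' ∈ Loc G F m (γ j)) ∧ g j y = g j y' :=
        fun j hj hj' => hsame j y y' fun u hu => h u ⟨j, hj, hj', hu⟩
      refine ⟨fun j hj hj' => (hs j hj hj').1.1 (ha j hj hj'), fun j hj hj' => ?_⟩
      have := hb j hj hj'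
      simp only [hcond] at this ⊢
      rw [← (hs j hj hj'.le).2, ← (hs (j + 1) (by omega) hj').2]
      exact this
    have hsum : ∀ f : ℕ → ZMod 2, ∑ j ∈ Finset.Ioo 0 n, f j
        = ∑ j ∈ Finset.Ioc 0 p, f j + ∑ j ∈ Finset.Ioo p n, f j := by
      intro f
      rw [← Finset.sum_union]
      · apply Finset.sum_congr _ fun _ _ => rfl
        ext j
        simp only [Finset.mem_union, Finset.mem_Ioo, Finset.mem_Ioc]
        omega
      · rw [Finset.disjoint_left]
        intro j hj hj'
        rw [Finset.mem_Ioc] at hj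
        rw [Finset.mem_Ioo] at hj'
        omega
    -- the relation, in terms of F
    have hR : ∀ᵐ y ∂(PI V), Mx G (F y) c γ → ∀ i : ℕ,
        (F y (γ 0) (c, 0, i + 2) && F y (γ n) (c, n, i + 2))
          = decide (∑ j ∈ Finset.Ioo 0 n, bt (F y (γ j) (c, j, i + 2)) = 1) := by
      apply ae_of_ae_map hF.aemeasurable
        (p := fun x : V → K → Bool => Mx G x c γ → ∀ i : ℕ,
          (x (γ 0) (c, 0, i + 2) && x (γ n) (c, n, i + 2))
          = decide (∑ j ∈ Finset.Ioo 0 n, bt (x (γ j) (c, j, i + 2)) = 1))
      rw [hmap]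
      unfold muX
      have hco : ∀ (v : V) (k : K), Measurable (fun x : V → K → Bool => x v k) := fun v k =>
        (measurable_pi_apply k).comp (measurable_pi_apply v)
      have hco' : ∀ (v : V) (k : K), MeasurableSet {x : V → K → Bool | x v k = true} :=
        fun v k => meas_bool_eq _ _ (hco v k) measurable_const
      rw [ae_map_iff (hm V G Set.univ hV).1.aemeasurable]
      · refine Filter.Eventually.of_forall fun ω hMx i => ?_
        have := hrel V G ω c γ hMx (i + 2) (by omega)
        rw [bt_iff] at this
        exact this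
      · have e1 : MeasurableSet {x : V → K → Bool | Mx G x c γ} := by
          have : {x : V → K → Bool | Mx G x c γ} = ⋂ j : ℕ, {x | j < c.1 + 2 →
              (G.Adj (γ j) (γ (j + 1)) ∧ x (γ j) (c, j, 0) = true ∧
              x (γ (j + 1)) (c, j, 0) = true ∧ x (γ j) (c, j, 1) = true ∧
              x (γ (j + 1)) (c, j, 1) = true)} := by
            ext x
            simp only [Set.mem_iInter]
            rfl
          rw [this]
          refine MeasurableSet.iInter fun j => ?_
          by_cases hj : j < c.1 + 2
          · by_cases ha : G.Adj (γ j) (γ (j + 1))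
            · have : {x : V → K → Bool | j < c.1 + 2 →
                  (G.Adj (γ j) (γ (j + 1)) ∧ x (γ j) (c, j, 0) = true ∧
                  x (γ (j + 1)) (c, j, 0) = true ∧ x (γ j) (c, j, 1) = true ∧
                  x (γ (j + 1)) (c, j, 1) = true)}
                  = {x | x (γ j) (c, j, 0) = true} ∩ ({x | x (γ (j + 1)) (c, j, 0) = true} ∩
                    ({x | x (γ j) (c, j, 1) = true} ∩ {x | x (γ (j + 1)) (c, j, 1) = true})) := by
                ext x
                constructor
                · intro h
                  exact (h hj).2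
                · intro h _
                  exact ⟨ha, h⟩
              rw [this]
              exact (hco' _ _).inter ((hco' _ _).inter ((hco' _ _).inter (hco' _ _)))
            · have : {x : V → K → Bool | j < c.1 + 2 →
                  (G.Adj (γ j) (γ (j + 1)) ∧ x (γ j) (c, j, 0) = true ∧
                  x (γ (j + 1)) (c, j, 0) = true ∧ x (γ j) (c, j, 1) = true ∧
                  x (γ (j + 1)) (c, j, 1) = true)} = ∅ := by
                ext x
                constructor
                · intro h
                  exact absurd (h hj).1 ha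
                · intro h
                  exact absurd h (Set.notMem_empty x)
              rw [this]
              exact MeasurableSet.empty
          · have : {x : V → K → Bool | j < c.1 + 2 →
                (G.Adj (γ j) (γ (j + 1)) ∧ x (γ j) (c, j, 0) = true ∧
                x (γ (j + 1)) (c, j, 0) = true ∧ x (γ j) (c, j, 1) = true ∧
                x (γ (j + 1)) (c, j, 1) = true)} = Set.univ := by
              ext x
              constructor
              · intro _
                exact Set.mem_univ x
              · intro _ h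
                exact absurd h hj
            rw [this]
            exact MeasurableSet.univ
        have e2 : MeasurableSet (⋂ i : ℕ, {x : V → K → Bool |
            (x (γ 0) (c, 0, i + 2) && x (γ n) (c, n, i + 2))
            = decide (∑ j ∈ Finset.Ioo 0 n, bt (x (γ j) (c, j, i + 2)) = 1)}) := by
          refine MeasurableSet.iInter fun i => ?_
          apply meas_bool_eq
          · have hand : Measurable (fun q : Bool × Bool => (q.1 && q.2)) := Measurable.of_discrete
            exact hand.comp ((hco (γ 0) (c, 0, i + 2)).prodMk (hco (γ n) (c, n, i + 2)))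
          · exact measD (Finset.Ioo 0 n) (fun j (x : V → K → Bool) => x (γ j) (c, j, i + 2))
              (fun j => hco _ _)
        have e3 : {x : V → K → Bool | Mx G x c γ → ∀ i : ℕ,
            (x (γ 0) (c, 0, i + 2) && x (γ n) (c, n, i + 2))
            = decide (∑ j ∈ Finset.Ioo 0 n, bt (x (γ j) (c, j, i + 2)) = 1)}
            = {x : V → K → Bool | Mx G x c γ}ᶜ ∪ (⋂ i : ℕ, {x : V → K → Bool |
            (x (γ 0) (c, 0, i + 2) && x (γ n) (c, n, i + 2))
            = decide (∑ j ∈ Finset.Ioo 0 n, bt (x (γ j) (c, j, i + 2)) = 1)}) := by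
          ext x
          simp only [Set.mem_union, Set.mem_compl_iff, Set.mem_iInter]
          exact imp_iff_not_or
        rw [e3]
        exact e1.compl.union e2
    have hnull : PI V (EL ∩ ER) = 0 := by
      refine hprv V NL NR (Bal G m (γ 0)) (Bal G m (γ n)) hV ?_ ?_ ?_ ?_ EL ER
        (Loc G F m (γ 0)) (Loc G F m (γ n)) (fun y i => g 0 y (c, 0, i + 2))
        (fun y i => g n y (c, n, i + 2))
        (fun y i => decide (∑ j ∈ Finset.Ioc 0 p, bt (g j y (c, j, i + 2)) = 1))
        (fun y i => decide (∑ j ∈ Finset.Ioo p n, bt (g j y (c, j, i + 2)) = 1))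
        ?_ ?_ (hLm 0) (hLm n) ?_ ?_ ?_ ?_ ?_ ?_ ?_ ?_ ?_ ?_ ?_ ?_ ?_ ?_ ?_ ?_ ?_
      · intro u hu
        exact ⟨0, Nat.zero_le _, hu⟩
      · intro u hu
        exact ⟨n, hpn, le_refl n, hu⟩
      · rw [Set.disjoint_left]
        rintro u hu ⟨j, hj, hj', hu'⟩
        have := htri 0 j u (Nat.zero_le _) hj' hu hu'
        omega
      · rw [Set.disjoint_left]
        rintro u hu ⟨j, hj, hu'⟩
        have := htri j n u (by omega) (le_refl n) hu' hu
        omega
      · have : EL = (⋂ j : ℕ, ⋂ _ : j ≤ p, Loc G F m (γ j)) ∩ (⋂ j : ℕ, ⋂ _ : j < p, {y | cond j y}) := by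
          ext y
          simp only [Set.mem_inter_iff, Set.mem_iInter]
          rfl
        rw [this]
        exact (MeasurableSet.iInter fun j => MeasurableSet.iInter fun _ => hLm j).inter
          (MeasurableSet.iInter fun j => MeasurableSet.iInter fun _ => hcm j)
      · have : ER = (⋂ j : ℕ, ⋂ _ : p ≤ j, ⋂ _ : j ≤ n, Loc G F m (γ j)) ∩
            (⋂ j : ℕ, ⋂ _ : p ≤ j, ⋂ _ : j < n, {y | cond j y}) := by
          ext y
          simp only [Set.mem_inter_iff, Set.mem_iInter]
          rfl
        rw [this]
        exact (MeasurableSet.iInter fun j => MeasurableSet.iInter fun _ =>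
          MeasurableSet.iInter fun _ => hLm j).inter
          (MeasurableSet.iInter fun j => MeasurableSet.iInter fun _ =>
          MeasurableSet.iInter fun _ => hcm j)
      · exact measurable_pi_lambda _ fun i => hgm 0 _
      · exact measurable_pi_lambda _ fun i => hgm n _
      · exact measurable_pi_lambda _ fun i => measD _ (fun j y => g j y (c, j, i + 2))
          (fun j => hgm j _)
      · exact measurable_pi_lambda _ fun i => measD _ (fun j y => g j y (c, j, i + 2))
          (fun j => hgm j _)
      · intro y y' h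
        exact propext ⟨hELs y y' h, hELs y' y fun u hu => (h u hu).symm⟩
      · intro y y' h
        exact propext ⟨hERs y y' h, hERs y' y fun u hu => (h u hu).symm⟩
      · intro y y' h
        exact propext (hsame 0 y y' h).1
      · intro y y' h
        exact propext (hsame n y y' h).1
      · intro y y' h
        funext i
        show g 0 y (c, 0, i + 2) = g 0 y' (c, 0, i + 2)
        rw [(hsame 0 y y' h).2]
      · intro y y' h
        funext i
        show g n y (c, n, i + 2) = g n y' (c, n, i + 2)
        rw [(hsame n y y' h).2]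
      · intro y y' h
        funext i
        show decide (∑ j ∈ Finset.Ioc 0 p, bt (g j y (c, j, i + 2)) = 1)
          = decide (∑ j ∈ Finset.Ioc 0 p, bt (g j y' (c, j, i + 2)) = 1)
        rw [Finset.sum_congr rfl fun j hj => by
          rw [(hsame j y y' fun u hu => h u ⟨j, (Finset.mem_Ioc.1 hj).2, hu⟩).2]]
      · intro y y' h
        funext i
        show decide (∑ j ∈ Finset.Ioo p n, bt (g j y (c, j, i + 2)) = 1)
          = decide (∑ j ∈ Finset.Ioo p n, bt (g j y' (c, j, i + 2)) = 1)
        rw [Finset.sum_congr rfl fun j hj => by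
          rw [(hsame j y y' fun u hu => h u ⟨j, (Finset.mem_Ioo.1 hj).1.le,
            (Finset.mem_Ioo.1 hj).2.le, hu⟩).2]]
      · exact fun y hy => hy.1 0 (Nat.zero_le _)
      · exact fun y hy => hy.1 n hpn (le_refl n)
      · filter_upwards [hL3, hR] with y hy hyR hyL hyE i
        have hall : ∀ j ≤ n, F y (γ j) = g j y := by
          intro j hj
          apply hy j
          rcases le_total j p with h | h
          · exact hyL.1 j h
          · exact hyE.1 j h hj
        have hMx : Mx G (F y) c γ := by
          intro j hj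
          rw [hcn] at hj
          have hcj : cond j y := by
            rcases lt_or_ge j p with h | h
            · exact hyL.2 j h
            · exact hyE.2 j h hj
          rw [hall j hj.le, hall (j + 1) hj]
          exact ⟨hNB.1 j hj, hcj⟩
        have h5 := hyR hMx i
        rw [hall 0 (Nat.zero_le _), hall n (le_refl n)] at h5
        have h6 : ∑ j ∈ Finset.Ioo 0 n, bt (F y (γ j) (c, j, i + 2))
            = ∑ j ∈ Finset.Ioo 0 n, bt (g j y (c, j, i + 2)) :=
          Finset.sum_congr rfl fun j hj => by rw [hall j (Finset.mem_Ioo.1 hj).2.le]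
        rw [h6, hsum, xor_iff] at h5
        exact h5
      · intro I hI c'
        have h5 := Measure.preimage_null_of_map_null hF.aemeasurable
          (by rw [hmap]; exact hbit V G hV (γ 0) c 0 (by omega) I hI c')
        have h6 : ∀ᵐ y ∂(PI V), ¬ (y ∈ F ⁻¹' {x | ∀ i ∈ I, x (γ 0) (c, 0, i + 2) = c' i}) :=
          measure_eq_zero_iff_ae_notMem.1 h5
        apply measure_eq_zero_iff_ae_notMem.2
        filter_upwards [hL3, h6] with y hy hy6 hy7
        apply hy6
        intro i hi
        have h8 := hy7.2 i hi
        show F y (γ 0) (c, 0, i + 2) = c' i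
        rw [hy 0 hy7.1]
        exact h8
      · intro I hI c'
        have h5 := Measure.preimage_null_of_map_null hF.aemeasurable
          (by rw [hmap]; exact hbit V G hV (γ n) c n (by omega) I hI c')
        have h6 : ∀ᵐ y ∂(PI V), ¬ (y ∈ F ⁻¹' {x | ∀ i ∈ I, x (γ n) (c, n, i + 2) = c' i}) :=
          measure_eq_zero_iff_ae_notMem.1 h5
        apply measure_eq_zero_iff_ae_notMem.2
        filter_upwards [hL3, h6] with y hy hy6 hy7
        apply hy6
        intro i hi
        have h8 := hy7.2 i hi
        show F y (γ n) (c, n, i + 2) = c' i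
        rw [hy n hy7.1]
        exact h8
    have hnull' := measure_eq_zero_iff_ae_notMem.1 hnull
    filter_upwards [hL3, hnull'] with y hy hy2
    rintro ⟨hall, hMx⟩
    apply hy2
    have hcj : ∀ j < n, cond j y := by
      intro j hj
      have h5 := (hMx j hj).2
      rw [hy j (hall j hj.le), hy (j + 1) (hall (j + 1) hj)] at h5
      exact h5
    exact ⟨⟨fun j hj => hall j (hj.trans hpn), fun j hj => hcj j (lt_of_lt_of_le hj hpn)⟩,
      fun j _ hj => hall j hj, fun j _ hj => hcj j hj⟩
  filter_upwards [hC', ae_all_iff.2 key] with y hy1 hy2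
  obtain ⟨c1, hc1⟩ := hy1
  by_contra hcon
  push Not at hcon
  exact hy2 c1 ⟨hcon, hc1⟩

end

end Pool.Agent.W726.FT.Hit

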